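import Pool.Agent.K4H71.Go.Asym
import Pool.Agent.K4H71.Go.Numeric

/-!
# The double-exponential growth of the number of Go games

For the number `N(n)` of games and the number `L(n)` of legal positions of the `n × n` board there is
a constant `ℓ` with `log₂ L(n) = ℓ n ^ 2 + O(n)` and `log₂ log₂ N(n) = ℓ n ^ 2 + O(n ^ (4 / 3))`.
-/

set_option autoImplicit false

namespace Pool.Agent.Results.MP_7325a4_co.GamesGrowth

open Filter Asymptotics Pool.Agent.K4H71.Go

/-- The leading coefficient of `log₂ log₂ N(n)` is the growth constant of legal positions. -/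
theorem result : ∃ ℓ : ℝ,
    (Real.logb 2 57 / 4 ≤ ℓ ∧ ℓ ≤ Real.logb 2 19521 / 9) ∧
    (∀ n : ℕ, 1 ≤ n → Real.logb 2 (numLegal n) ≤ ℓ * n ^ 2 ∧
      ℓ * n ^ 2 ≤ Real.logb 2 (numLegal n) + 4 * Real.logb 2 3 * n) ∧
    (fun n : ℕ => Real.logb 2 (Real.logb 2 (numGames n)) - ℓ * (n : ℝ) ^ 2) =O[atTop]
      fun n : ℕ => (n : ℝ) ^ (4 / 3 : ℝ) := by
  obtain ⟨ℓ, _, h1, h2⟩ := growth
  exact ⟨ℓ, growth_bounds h1, h1, h2⟩

end Pool.Agent.Results.MP_7325a4_co.GamesGrowth
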